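import Pool.Agent.Helper47.CL.CofSum
import Pool.Agent.Helper75.CB.Adm
import Pool.Agent.Helper23.CB.Inst3

/-!
# CB for symbols of prime degrees: the sum over all pairs (rough ideal, root)
-/

set_option autoImplicit false

namespace Pool.Agent.Helper47.CL

open NumberField Polynomial Finset Pool.Agent.Helper4.CB Pool.Agent.Helper25.CB
  Pool.Agent.Helper35.CB Pool.Agent.Helper23.CB Pool.Agent.Helper75.CB

/-- **ADM**, with hypotheses on the sets of prime factors -/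
theorem adm_aux (K : Type) [Field K] [NumberField K] (k : ℕ) {ε : ℝ} (hε : 0 < ε) :
    ∃ B : ℕ, ∀ M : ℕ, B ≤ M.totient → ∃ Z0 : ℕ, ∀ z : ℕ, Z0 ≤ z → ∀ a : ZMod M, IsUnit a →
      ∀ (p : Ideal (𝓞 K) → Prop) (R : {I : Ideal (𝓞 K) // p I} → Type)
      (A : Finset (Σ I : {I : Ideal (𝓞 K) // p I}, R I)),
      (∀ x ∈ A, x.1.1 ≠ ⊥ ∧ x.1.1 ≠ ⊤ ∧ ((Ideal.absNorm x.1.1 : ℕ) : ZMod M) = a ∧
        Ideal.absNorm x.1.1 ≤ z ^ k ∧ (∀ P : Ideal (𝓞 K), P.IsPrime → x.1.1 ≤ P →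
          z < Ideal.absNorm P) ∧ Finite (R x.1) ∧ Nat.card (R x.1) ≤ 3 ^ k) →
      ∑ x ∈ A, (1 : ℝ) / Ideal.absNorm x.1.1 ≤ ε := by
  classical
  have h3 : (0 : ℝ) < 3 ^ k := by positivity
  obtain ⟨J0, hJ0⟩ := Pool.Agent.Helper47.CL.cof_sum K k (ε := ε / 3 ^ k) (by positivity)
  refine ⟨J0, fun M hJ => ?_⟩
  obtain ⟨Z0, hZ0⟩ := hJ0 M hJ
  refine ⟨Z0, fun z hz a ha p R A hA => ?_⟩
  have h1 := sum_sigma_le (fun I : {I : Ideal (𝓞 K) // p I} => Ideal.absNorm I.1) A (3 ^ k)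
    (fun x hx => (hA x hx).2.2.2.2.2)
  refine h1.trans ?_
  have h2 : ∑ i ∈ A.image Sigma.fst, (1 : ℝ) / Ideal.absNorm i.1 =
      ∑ b ∈ (A.image Sigma.fst).image Subtype.val, (1 : ℝ) / Ideal.absNorm b := by
    refine (Finset.sum_image (f := fun b : Ideal (𝓞 K) => (1 : ℝ) / Ideal.absNorm b)
      (g := fun i : {I : Ideal (𝓞 K) // p I} => i.1) ?_).symm
    intro x _ y _ hxy
    exact Subtype.ext hxy
  have h4 : ∑ b ∈ (A.image Sigma.fst).image Subtype.val, (1 : ℝ) / Ideal.absNorm b ≤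
      ε / 3 ^ k := by
    apply hZ0 z hz a ha
    intro b hb
    obtain ⟨I, hI, rfl⟩ := Finset.mem_image.1 hb
    obtain ⟨x, hx, rfl⟩ := Finset.mem_image.1 hI
    obtain ⟨g1, g2, g3, g4, g5, -⟩ := hA x hx
    exact ⟨g1, g2, g3, g4, g5⟩
  rw [h2]
  push_cast
  calc (3 : ℝ) ^ k * _ ≤ 3 ^ k * (ε / 3 ^ k) := mul_le_mul_of_nonneg_left h4 h3.le
    _ = ε := by field_simp

/-- **ADM.**  From `cof_sum` with `ε / 3 ^ k` and `card_Rt_le`, `card_pf_le`. -/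
theorem adm_sum (K : Type) [Field K] [NumberField K] (k : ℕ) {ε : ℝ} (hε : 0 < ε) :
    ∃ B : ℕ, ∀ M : ℕ, B ≤ M.totient → ∃ Z0 : ℕ, ∀ z : ℕ, Z0 ≤ z → ∀ a : ZMod M, IsUnit a →
      ∀ (m : ℕ) (P : (𝓞 K)[X]), P.Monic → P.natDegree ≤ 3 →
      (∀ q : Ideal (𝓞 K), (m : 𝓞 K) ∉ q → ∀ t, P.eval t ∈ q → P.derivative.eval t ∉ q) →
      ∀ A : Finset (Σ I : Im K m, Rt P I.1),
      (∀ x ∈ A, x.1.1 ≠ ⊤ ∧ ((Ideal.absNorm x.1.1 : ℕ) : ZMod M) = a ∧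
        Ideal.absNorm x.1.1 ≤ z ^ k ∧ ∀ q ∈ pf x.1, z < nm q.1) →
      ∑ x ∈ A, (1 : ℝ) / Ideal.absNorm x.1.1 ≤ ε := by
  obtain ⟨J0, hJ0⟩ := Pool.Agent.Helper47.CL.adm_aux K k hε
  refine ⟨J0, fun M hJ => ?_⟩
  obtain ⟨Z0, hZ0⟩ := hJ0 M hJ
  refine ⟨max Z0 2, fun z hz a ha m P hP h3 hD A hA => ?_⟩
  apply hZ0 z ((le_max_left _ _).trans hz) a ha _ _ A
  intro x hx
  obtain ⟨h1, h2, h4, h5⟩ := hA x hx
  obtain ⟨g1, g2⟩ := card_Rt_le P hP h3 hD x.1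
  refine ⟨x.1.2.1, h1, h2, h4, ?_, g1, g2.trans ?_⟩
  · intro Q hQ hle
    obtain ⟨q, hq, rfl⟩ := exists_pf x.1 Q hQ hle
    exact h5 q hq
  · exact Nat.pow_le_pow_right (by norm_num)
      (card_pf_le x.1 ((le_max_right _ _).trans hz) h5 h4)

end Pool.Agent.Helper47.CL
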