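import Pool.Agent.Helper57.CB.CofSum

/-!
# CB for symbols of prime degrees: sum over rough ideals whose norm is in a fixed class, for every
modulus `M` with large `φ(M)`
-/

set_option autoImplicit false

namespace Pool.Agent.Helper47.CL

open NumberField Ideal Finset Pool.Agent.Helper57.CB

variable {K : Type} [Field K] [NumberField K]

open Classical in
theorem cof_sum (K : Type) [Field K] [NumberField K] (k : ℕ) {ε : ℝ} (hε : 0 < ε) :
    ∃ B : ℕ, ∀ M : ℕ, B ≤ M.totient → ∃ Z0 : ℕ, ∀ z : ℕ, Z0 ≤ z → ∀ a : ZMod M, IsUnit a →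
      ∀ A : Finset (Ideal (𝓞 K)),
      (∀ b ∈ A, b ≠ ⊥ ∧ b ≠ ⊤ ∧ ((absNorm b : ℕ) : ZMod M) = a ∧ absNorm b ≤ z ^ k ∧
        ∀ P : Ideal (𝓞 K), P.IsPrime → b ≤ P → z < absNorm P) →
      ∑ b ∈ A, (1 : ℝ) / absNorm b ≤ ε := by
  set k' : ℕ := k + 1 with hk'
  set L : ℝ := 1 + 2 * Real.log k' with hL
  have hL0 : 0 ≤ L := by
    have : 0 ≤ Real.log (k' : ℝ) := Real.log_natCast_nonneg _
    linarith
  set n : ℝ := (Module.finrank ℚ K : ℝ) with hn
  have hn0 : 0 ≤ n := by positivity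
  set s : ℝ := 9 * n * L with hs
  have hs0 : 0 ≤ s := by positivity
  obtain ⟨J0, hJ0⟩ := exists_nat_gt (s * (1 + s) ^ k' / ε)
  refine ⟨J0 + 1, fun M hJ => ?_⟩
  have hM0 : M ≠ 0 := by
    rintro rfl
    rw [Nat.totient_zero] at hJ
    omega
  obtain ⟨w1, hw1, h1⟩ := Pool.Agent.Helper92.CB.invK_class_le K 1
  have : NeZero M := ⟨hM0⟩
  obtain ⟨w2, hw2, h2⟩ := Pool.Agent.Helper92.CB.invK_class_le K M
  refine ⟨⌈w1⌉₊ + ⌈w2⌉₊ + 1, fun z hz a ha A hA => ?_⟩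
  have hz1 : w1 ≤ z := (Nat.le_ceil w1).trans (by exact_mod_cast (by omega : ⌈w1⌉₊ ≤ z))
  have hz2 : w2 ≤ z := (Nat.le_ceil w2).trans (by exact_mod_cast (by omega : ⌈w2⌉₊ ≤ z))
  have hz0 : 0 < z := by omega
  have hze : Real.exp 1 ≤ (z : ℝ) := hw1.trans hz1
  have hlz : 1 ≤ Real.log z := by
    rw [Real.le_log_iff_exp_le (by exact_mod_cast hz0)]
    exact hze
  have hzk : (z : ℝ) ≤ (z : ℝ) ^ k' := by
    have h1z : (1 : ℝ) ≤ z := by exact_mod_cast hz0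
    exact le_self_pow₀ h1z (by omega)
  have hlog : 1 + 2 * Real.log (Real.log ((z : ℝ) ^ k') / Real.log z) = L := by
    rw [Real.log_pow, mul_div_assoc, div_self (by linarith), mul_one]
  have hT : ∀ S : Finset (Ideal (𝓞 K)), (∀ P ∈ S, P.IsPrime ∧ P ≠ ⊥ ∧ z < absNorm P ∧
      absNorm P ≤ z ^ k') → ∑ P ∈ S, (1 : ℝ) / absNorm P ≤ s := by
    intro S hS
    have := h1 1 isUnit_one z ((z : ℝ) ^ k') hz1 hzk S (fun P hP => by
      obtain ⟨a1, a2, a3, a4⟩ := hS P hP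
      exact ⟨a1, a2, Subsingleton.elim _ _, by exact_mod_cast a3, by exact_mod_cast a4⟩)
    rw [hlog] at this
    simpa [hs] using this
  set e : ℝ := 9 * n / (M.totient : ℕ) * L with he
  have htot : (0 : ℝ) < M.totient := by exact_mod_cast (by omega : 0 < M.totient)
  have hC : ∀ a' : ZMod M, IsUnit a' → ∀ S : Finset (Ideal (𝓞 K)),
      (∀ P ∈ S, P.IsPrime ∧ P ≠ ⊥ ∧ ((absNorm P : ℕ) : ZMod M) = a' ∧ z < absNorm P ∧
      absNorm P ≤ z ^ k') → ∑ P ∈ S, (1 : ℝ) / absNorm P ≤ e := by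
    intro a' ha' S hS
    have := h2 a' ha' z ((z : ℝ) ^ k') hz2 hzk S (fun P hP => by
      obtain ⟨a1, a2, a3, a4, a5⟩ := hS P hP
      exact ⟨a1, a2, a3, by exact_mod_cast a4, by exact_mod_cast a5⟩)
    rw [hlog] at this
    exact this
  have he0 : 0 ≤ e := by
    rw [he]
    positivity
  choose p c hpc using exists_peel (K := K)
  have hkey : ∀ b ∈ A, absNorm (c b) ≤ z ^ k' ∧ c b ≠ ⊥ ∧ p b ≠ ⊥ ∧
      z < absNorm (p b) ∧ absNorm (p b) ≤ z ^ k' ∧ b ≤ c b ∧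
      absNorm b = absNorm (p b) * absNorm (c b) := by
    intro b hb
    obtain ⟨g1, hbt, g4, g2, g3⟩ := hA b hb
    obtain ⟨e1, e2, e3⟩ := hpc b hbt
    have hc0 : c b ≠ ⊥ := by
      intro h0
      apply g1
      rw [e1, h0, Ideal.mul_bot]
    have hp0 : p b ≠ ⊥ := by
      intro h0
      apply g1
      rw [e1, h0, Ideal.bot_mul]
    have hmul : absNorm b = absNorm (p b) * absNorm (c b) := by
      conv_lhs => rw [e1, map_mul]
    have hle : absNorm b ≤ z ^ k' := g2.trans (Nat.pow_le_pow_right hz0 (by omega))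
    refine ⟨?_, hc0, hp0, g3 _ e2 e3, ?_, ?_, hmul⟩
    · exact (Nat.le_mul_of_pos_left _ (absNorm_pos' hp0)).trans (hmul ▸ hle)
    · exact (Nat.le_mul_of_pos_right _ (absNorm_pos' hc0)).trans (hmul ▸ hle)
    · exact e1.le.trans (Ideal.mul_le_right (I := p b) (J := c b))
  have h3 := peel A p c (fun b hb => (hpc b (hA b hb).2.1).1) e (fun d hd => by
    rw [Finset.mem_image] at hd
    obtain ⟨b0, hb0, rfl⟩ := hd
    have hu : IsUnit ((absNorm (c b0) : ℕ) : ZMod M) ∧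
        IsUnit ((absNorm (p b0) : ℕ) : ZMod M) := by
      have hab := (hA b0 hb0).2.2.1
      rw [(hkey b0 hb0).2.2.2.2.2.2, Nat.cast_mul] at hab
      rw [← hab] at ha
      exact ⟨isUnit_of_mul_isUnit_right ha, isUnit_of_mul_isUnit_left ha⟩
    refine hC ((absNorm (p b0) : ℕ) : ZMod M) hu.2 _ (fun P hP => ?_)
    rw [Finset.mem_image] at hP
    obtain ⟨b, hb, rfl⟩ := hP
    rw [Finset.mem_filter] at hb
    obtain ⟨a1, a2, a3, a4, a5, a6, a7⟩ := hkey b hb.1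
    refine ⟨(hpc b (hA b hb.1).2.1).2.1, a3, ?_, a4, a5⟩
    have hab := (hA b0 hb0).2.2.1
    have hab' := (hA b hb.1).2.2.1
    rw [(hkey b0 hb0).2.2.2.2.2.2, Nat.cast_mul] at hab
    rw [a7, Nat.cast_mul, hb.2] at hab'
    exact hu.1.mul_right_cancel (hab'.trans hab.symm))
  have h4 := tot hs0 hz0 hT k' le_rfl (A.image c) (fun d hd => by
    rw [Finset.mem_image] at hd
    obtain ⟨b, hb, rfl⟩ := hd
    obtain ⟨a1, a2, a3, a4, a5, a6, a7⟩ := hkey b hb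
    exact ⟨a2, a1, fun P hP hle => (hA b hb).2.2.2.2 P hP (a6.trans hle)⟩)
  refine h3.trans ((mul_le_mul_of_nonneg_left h4 he0).trans ?_)
  have h5 : e = s / M.totient := by
    rw [he, hs]
    ring
  rw [h5, div_mul_eq_mul_div, div_le_iff₀ htot]
  have h6 : (J0 : ℝ) ≤ M.totient := by
    exact_mod_cast (by omega : J0 ≤ M.totient)
  rw [div_lt_iff₀ hε] at hJ0
  nlinarith

/-- `φ(l ^ J)` is at least `J` -/
theorem le_totient {l : ℕ} (hl : l.Prime) (J : ℕ) : J ≤ (l ^ J).totient := by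
  rcases Nat.eq_zero_or_pos J with rfl | hJ
  · exact Nat.zero_le _
  · rw [Nat.totient_prime_pow hl hJ]
    have h1 : J - 1 < 2 ^ (J - 1) := Nat.lt_two_pow_self
    have h2 : 2 ^ (J - 1) ≤ l ^ (J - 1) := Nat.pow_le_pow_left hl.two_le _
    have h3 : 1 ≤ l - 1 := by
      have := hl.two_le
      omega
    calc J ≤ l ^ (J - 1) * 1 := by omega
      _ ≤ l ^ (J - 1) * (l - 1) := Nat.mul_le_mul_left _ h3

end Pool.Agent.Helper47.CL
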