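import Pool.Agent.Helper47.CL.Adm
import Pool.Agent.Helper65.CL.Bad
import Pool.Agent.Helper65.CL.Defs
import Pool.Agent.Helper23.CB.Glue3

/-!
# CB for symbols of prime degrees: the sieve with a natural scaling, degree at most three
-/

set_option autoImplicit false

namespace Pool.Agent.Helper47.CL

open NumberField Polynomial Finset Pool.Agent.Helper4.CB Pool.Agent.Helper25.CB
  Pool.Agent.Helper35.CB Pool.Agent.Helper47.CB Pool.Agent.Helper92.CB Pool.Agent.Helper23.CB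
  Pool.Agent.Helper65.CL

variable {K : Type} [Field K] [NumberField K]

/-- the cofactor of a bad prime dividing `P(u, s v)` -/
theorem cof_PG {M : ℕ} {m s : ℕ} {P : (𝓞 K)[X]} (hP : P.Monic) (hsm : ∀ q : Pm K m, (s : 𝓞 K) ∉ q.1.asIdeal)
    (a : ZMod M) {C : ℕ}
    (hC : ∀ X : ℕ, 1 ≤ X → ∀ g ∈ bx (eK K) 0 X,
      (Algebra.norm ℤ (hv P g.1 (s * g.2))).natAbs ≤ C * X ^ (P.natDegree * Module.finrank ℚ K))
    {X : ℕ} (hX : 1 ≤ X) {g : 𝓞 K × 𝓞 K} (hg : g ∈ bx (eK K) 0 X)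
    (hgam : ∀ q : Pm K m, g ∉ gam q.1.asIdeal) (q : Pm K m)
    (hcof : hv P g.1 (s * g.2) ∈ q.1.asIdeal → ∃ I : Im K m, I.1 ≠ ⊤ ∧ hv P g.1 (s * g.2) ∈ I.1 ∧
      Ideal.absNorm I.1 * nm q.1 ≤ (Algebra.norm ℤ (hv P g.1 (s * g.2))).natAbs ∧
      (((Ideal.absNorm I.1 : ℕ) : ZMod M) = a ∨
        ((Ideal.absNorm I.1 : ℕ) : ZMod M) = - a))
    (t : Rt P (ofPm q).1) (hgt : g ∈ Lam (ofPm q).1 (rep t * s)) :
    ∃ b : Σ I : Im K m, Rt P I.1,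
      (b.1.1 ≠ ⊤ ∧ (((Ideal.absNorm b.1.1 : ℕ) : ZMod M) = a ∨
        ((Ideal.absNorm b.1.1 : ℕ) : ZMod M) = - a)) ∧
      (pf b.1).Nonempty ∧ g ∈ Lam b.1.1 (rep b.2 * s) ∧
      (∀ q' ∈ pf b.1, hv P g.1 (s * g.2) ∈ q'.1.asIdeal) ∧
      Ideal.absNorm b.1.1 * nm q.1 ≤ C * X ^ (P.natDegree * Module.finrank ℚ K) := by
  have hx : hv P g.1 (s * g.2) ∈ q.1.asIdeal :=
    hv_mem K P hP s _ (rep t) (eval_rep t) g hgt
  obtain ⟨I, hI1, hI2, hI3, hI4⟩ := hcof hx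
  obtain ⟨t', ht'⟩ := Pool.Agent.Helper79.CB.root_of_mem' P hP I.1 (s : 𝓞 K) g hI2
    (fun q' hq' hqq' => by
      obtain ⟨q'', hq'', rfl⟩ := exists_pf I q' hq' hqq'
      exact ⟨hsm q'', fun h => hgam q'' (mem_gam.2 h)⟩)
  refine ⟨⟨I, t'⟩, ⟨hI1, hI4⟩, pf_nonempty I hI1, ht', ?_, ?_⟩
  · intro q' hq'
    exact mem_pf.1 hq' hI2
  · exact hI3.trans (hC X hX g hg)

/-- the admissible cofactors -/
def admL {Λ : Finset ℕ} {J : ℕ} (a : ∀ l : ℕ, (𝓞 K)[X] → ZMod (l ^ J)) (S : Finset (𝓞 K)[X])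
    (hS : ∀ P ∈ S, P.Monic)
    (s m D : ℕ) (hμ : ∀ q : Pm K m, (s : 𝓞 K) ∉ q.1.asIdeal)
    (hD : ∑ P ∈ S, P.natDegree + 1 ≤ D) (hs : s ≠ 0) (hS2 : ∀ P ∈ S, OkP K m P) :
    ∀ o : Option {P // P ∈ S}, Set (facO3 S hS s m D hμ hD hs hS2 o).B
  | none => Set.univ
  | some P => {x : BP K m P.1 | x.1.1 ≠ ⊤ ∧ ∃ l ∈ Λ,
      (((Ideal.absNorm x.1.1 : ℕ) : ZMod (l ^ J)) = a l P.1 ∨
        ((Ideal.absNorm x.1.1 : ℕ) : ZMod (l ^ J)) = - a l P.1)}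

/-- the sum over the cofactors in two opposite classes -/
theorem adm_one {M k : ℕ} {ε : ℝ} {a : ZMod M} (ha : IsUnit a) {m : ℕ}
    {P : (𝓞 K)[X]} {z : ℕ}
    (h : ∀ a : ZMod M, IsUnit a → ∀ A : Finset (BP K m P),
      (∀ x ∈ A, x.1.1 ≠ ⊤ ∧ ((Ideal.absNorm x.1.1 : ℕ) : ZMod M) = a ∧
        Ideal.absNorm x.1.1 ≤ z ^ k ∧ ∀ q ∈ pf x.1, z < nm q.1) →
      ∑ x ∈ A, (1 : ℝ) / Ideal.absNorm x.1.1 ≤ ε / 2)
    (A : Finset (BP K m P))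
    (hA : ∀ x ∈ A, (x.1.1 ≠ ⊤ ∧ (((Ideal.absNorm x.1.1 : ℕ) : ZMod M) = a ∨
        ((Ideal.absNorm x.1.1 : ℕ) : ZMod M) = - a)) ∧
        Ideal.absNorm x.1.1 ≤ z ^ k ∧ ∀ q ∈ pf x.1, z < nm q.1) :
    ∑ x ∈ A, (1 : ℝ) / Ideal.absNorm x.1.1 ≤ ε := by
  classical
  have h1 := h a ha (A.filter (fun x => ((Ideal.absNorm x.1.1 : ℕ) : ZMod M) = a))
    (fun x hx => by
      rw [mem_filter] at hx
      exact ⟨(hA x hx.1).1.1, hx.2, (hA x hx.1).2⟩)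
  have h2 := h (- a) ha.neg
    (A.filter (fun x => ¬ ((Ideal.absNorm x.1.1 : ℕ) : ZMod M) = a))
    (fun x hx => by
      rw [mem_filter] at hx
      exact ⟨(hA x hx.1).1.1, (hA x hx.1).1.2.resolve_left hx.2, (hA x hx.1).2⟩)
  rw [← Finset.sum_filter_add_sum_filter_not A
    (fun x => ((Ideal.absNorm x.1.1 : ℕ) : ZMod M) = a)]
  linarith

/-- the sum over the admissible cofactors -/
theorem adm_all {Λ : Finset ℕ} {J k : ℕ} {ε : ℝ} (hε : 0 ≤ ε) {a : ∀ l : ℕ, ZMod (l ^ J)}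
    (ha : ∀ l ∈ Λ, IsUnit (a l)) {m : ℕ} {P : (𝓞 K)[X]} {z : ℕ}
    (h : ∀ l ∈ Λ, ∀ a : ZMod (l ^ J), IsUnit a → ∀ A : Finset (BP K m P),
      (∀ x ∈ A, x.1.1 ≠ ⊤ ∧ ((Ideal.absNorm x.1.1 : ℕ) : ZMod (l ^ J)) = a ∧
        Ideal.absNorm x.1.1 ≤ z ^ k ∧ ∀ q ∈ pf x.1, z < nm q.1) →
      ∑ x ∈ A, (1 : ℝ) / Ideal.absNorm x.1.1 ≤ ε / (Λ.card + 1) / 2)
    (A : Finset (BP K m P))
    (hA : ∀ x ∈ A, (x.1.1 ≠ ⊤ ∧ ∃ l ∈ Λ, (((Ideal.absNorm x.1.1 : ℕ) : ZMod (l ^ J)) = a l ∨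
        ((Ideal.absNorm x.1.1 : ℕ) : ZMod (l ^ J)) = - a l)) ∧
        Ideal.absNorm x.1.1 ≤ z ^ k ∧ ∀ q ∈ pf x.1, z < nm q.1) :
    ∑ x ∈ A, (1 : ℝ) / Ideal.absNorm x.1.1 ≤ ε := by
  classical
  have h1 : A ⊆ Λ.biUnion (fun l => A.filter (fun x =>
      ((Ideal.absNorm x.1.1 : ℕ) : ZMod (l ^ J)) = a l ∨
        ((Ideal.absNorm x.1.1 : ℕ) : ZMod (l ^ J)) = - a l)) := by
    intro x hx
    obtain ⟨⟨-, l, hl, h2⟩, -⟩ := hA x hx
    rw [mem_biUnion]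
    exact ⟨l, hl, mem_filter.2 ⟨hx, h2⟩⟩
  calc ∑ x ∈ A, (1 : ℝ) / Ideal.absNorm x.1.1
      ≤ ∑ x ∈ Λ.biUnion (fun l => A.filter (fun x =>
          ((Ideal.absNorm x.1.1 : ℕ) : ZMod (l ^ J)) = a l ∨
            ((Ideal.absNorm x.1.1 : ℕ) : ZMod (l ^ J)) = - a l)),
          (1 : ℝ) / Ideal.absNorm x.1.1 :=
        sum_le_sum_of_subset_of_nonneg h1 (fun _ _ _ => by positivity)
    _ ≤ ∑ l ∈ Λ, ∑ x ∈ A.filter (fun x =>
          ((Ideal.absNorm x.1.1 : ℕ) : ZMod (l ^ J)) = a l ∨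
            ((Ideal.absNorm x.1.1 : ℕ) : ZMod (l ^ J)) = - a l),
          (1 : ℝ) / Ideal.absNorm x.1.1 :=
        sum_biUnion_le _ _ _ (fun _ => by positivity)
    _ ≤ ∑ l ∈ Λ, ε / (Λ.card + 1) := by
        refine sum_le_sum (fun l hl => adm_one (ha l hl) (h l hl) _ (fun x hx => ?_))
        rw [mem_filter] at hx
        exact ⟨⟨(hA x hx.1).1.1, hx.2⟩, (hA x hx.1).2⟩
    _ = (Λ.card : ℝ) * (ε / (Λ.card + 1)) := by rw [sum_const, nsmul_eq_mul]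
    _ ≤ (Λ.card + 1) * (ε / (Λ.card + 1)) := by
        refine mul_le_mul_of_nonneg_right (by linarith) (by positivity)
    _ = ε := by field_simp

/-- **the sieve with scaling `s`, degree at most three** -/
theorem glue_three (K : Type) [Field K] [NumberField K] (Λ : Finset ℕ) (hΛ : ∀ l ∈ Λ, l.Prime)
    (D J0 : ℕ) :
    ∃ J Y : ℕ, 1 ≤ J ∧ J0 ≤ J ∧ 2 ≤ Y ∧ (∀ l ∈ Λ, l ∣ Y) ∧ ∀ S : Finset (𝓞 K)[X], S.card ≤ D →
    ∀ (m r s : ℕ) (a : ∀ l : ℕ, (𝓞 K)[X] → ZMod (l ^ J)), (∀ P ∈ S, OkP K m P) → m ≠ 0 →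
      Y ∣ m → r.Coprime m → s ≠ 0 → (∀ q : Pm K m, (s : 𝓞 K) ∉ q.1.asIdeal) →
      (∀ l ∈ Λ, ∀ P ∈ S, IsUnit (a l P)) →
      (∀ u v : 𝓞 K, (m : 𝓞 K) ∣ u - (r : 𝓞 K) → (m : 𝓞 K) ∣ v - (r : 𝓞 K) → ∀ l ∈ Λ,
        Cofac m (l ^ J) v ∧ ∀ P ∈ S, Cofac3 m (l ^ J) (hv P u (s * v)) (a l P)) →
      ∀ Z : Finset K, ∃ u v : 𝓞 K,
        (m : 𝓞 K) ∣ u - (r : 𝓞 K) ∧ (m : 𝓞 K) ∣ v - (r : 𝓞 K) ∧ u ≠ 0 ∧ v ≠ 0 ∧
        IsCoprime u ((m : 𝓞 K) * v) ∧ (u : K) / (s * v) ∉ Z ∧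
        ∀ p : Pl K, Bad Λ J p → (m : 𝓞 K) ∉ p.asIdeal →
          v ∉ p.asIdeal ∧ ∀ P ∈ S, hv P u (s * v) ∉ p.asIdeal := by
  classical
  have hn : 1 ≤ Module.finrank ℚ K := Module.finrank_pos
  obtain ⟨Cm, hCm0, hCm⟩ := mertens_upper K
  obtain ⟨Y0, E, k0, ε, hε, hE, hcore⟩ := Pool.Agent.Helper23.CB.core3 (Module.finrank ℚ K) (3 * D + 1) (D + 1) hn Cm
  obtain ⟨J1, hJ1⟩ := bad_sum K Λ hΛ hε
  have hε' : 0 < ε / (Λ.card + 1) / 2 := by positivity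
  obtain ⟨J2, hJ2⟩ := Pool.Agent.Helper47.CL.adm_sum K k0 hε'
  obtain ⟨C3, hC3⟩ := sum_nm_rpow K
  obtain ⟨J, hJ⟩ : ∃ J, J = J0 + J1 + J2 + 1 := ⟨_, rfl⟩
  have hJ3 := fun (l : ℕ) (hl : l ∈ Λ) =>
    hJ2 (l ^ J) ((show J2 ≤ J by omega).trans (le_totient (hΛ l hl) J))
  choose! Zl hZl using hJ3
  obtain ⟨Z0, hZ0d⟩ : ∃ Z0, Z0 = ∑ l ∈ Λ, Zl l := ⟨_, rfl⟩
  have hZl0 : ∀ l ∈ Λ, Zl l ≤ Z0 := fun l hl => by
    rw [hZ0d]
    exact single_le_sum (f := Zl) (fun _ _ => Nat.zero_le _) hl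
  have hΛ1 : ∏ l ∈ Λ, l ≠ 0 := Finset.prod_ne_zero_iff.2 (fun l hl => (hΛ l hl).ne_zero)
  have hY2 : 2 ≤ 2 * (∏ l ∈ Λ, l) * Y0.factorial := by
    have h1 : 1 ≤ ∏ l ∈ Λ, l := Nat.one_le_iff_ne_zero.2 hΛ1
    exact le_trans (by omega) (Nat.le_mul_of_pos_right _ (Nat.factorial_pos _))
  refine ⟨J, 2 * (∏ l ∈ Λ, l) * Y0.factorial, by omega, by omega, hY2,
    fun l hl => ((Finset.dvd_prod_of_mem _ hl).mul_left 2).mul_right _,
    fun S hSD m r s a hS hm0 hYm hrm hs0 hμ ha hcof Z => ?_⟩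
  have hmY : Y0.factorial ∣ m := (Dvd.intro_left _ rfl).trans hYm
  have hmK : (m : 𝓞 K) ≠ 0 := Nat.cast_ne_zero.2 hm0
  have hm2 : m ≠ 1 := by
    rintro rfl
    have := Nat.le_of_dvd (by norm_num) hYm
    omega
  have hr0 : ∀ x : 𝓞 K, (m : 𝓞 K) ∣ x - (r : 𝓞 K) → x ≠ 0 := ne_zero_of_congr hm2 hrm
  have hSm : ∀ P ∈ S, P.Monic := fun P hP => (hS P hP).1
  have hD : ∑ P ∈ S, P.natDegree + 1 ≤ 3 * D + 1 := by
    have h1 : ∑ P ∈ S, P.natDegree ≤ ∑ _P ∈ S, 3 := sum_le_sum (fun P hP => (hS P hP).2.2.1)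
    rw [sum_const, smul_eq_mul] at h1
    omega
  obtain ⟨f, hf⟩ := exists_surj S hSD
  -- constants
  choose! C1 hC1 using fun P : (𝓞 K)[X] => Helper75.CB.norm_hv_le (K := K) P (s : 𝓞 K)
  obtain ⟨C2, hC2⟩ := Helper75.CB.norm_fst_le K
  obtain ⟨C4, hC4⟩ := Helper75.CB.norm_snd_le K
  obtain ⟨C5, hC5⟩ := rad_both K (eK K)
  obtain ⟨C, hC⟩ : ∃ C, C = ∑ P ∈ S, C1 P * 2 ^ (P.natDegree * Module.finrank ℚ K) +
    C2 * 2 ^ Module.finrank ℚ K + C4 * 2 ^ Module.finrank ℚ K + C5 + ⌈C3⌉₊ := ⟨_, rfl⟩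
  obtain ⟨T1, hT1⟩ := hcore (𝓞 K × 𝓞 K) (sysG S hSm (s : 𝓞 K) m (3 * D + 1) hμ hD) rfl
    (fun q => le_nm_of_factorial hmY q)
    (by
      intro x y hx hxy
      refine le_trans ?_ (hCm x y hx hxy)
      refine sum_sub_le (K := K) (m := m) _ _ (fun p => Real.log (nm p) / nm p) log_div_nonneg ?_
      intro q hq
      have hq' := (@Finset.mem_filter _ _ (_) _ _).1 hq
      exact (@Finset.mem_filter _ _ (_) _ _).2 ⟨mem_plLE.2 ((Sys.mem_le _).1 hq'.1), hq'.2⟩)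
    {q | Bad Λ J q.1}
    (by
      intro x hx
      refine le_trans ?_ (hJ1 J (by omega) x hx)
      refine sum_sub_le (K := K) (m := m) _ _ (fun p => Real.log (nm p) / nm p) log_div_nonneg ?_
      intro q hq
      have hq' := (@Finset.mem_filter _ _ (_) _ _).1 hq
      exact (@Finset.mem_filter _ _ (_) _ _).2 ⟨mem_plLE.2 ((Sys.mem_le _).1 hq'.1), hq'.2⟩)
    (fun l => facO3 S hSm s m (3 * D + 1) hμ hD hs0 hS (f l))
    (fun l => admL (Λ := Λ) a S hSm s m (3 * D + 1) hμ hD hs0 hS (f l))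
    (by
      intro l
      rcases f l with _ | P
      · intro hd
        exact absurd hd (by decide : (1 : ℕ) ≠ 3)
      · intro hd
        refine ⟨facP3G_win (S := S) (hS := hSm) (ν := s) (m := m) (D := 3 * D + 1) (hμ := hμ)
          (hD := hD) (hν := hs0) (P := P.1) (hP := hSm P.1 P.2) (h1 := (hS P.1 P.2).2.1)
          (h3 := (hS P.1 P.2).2.2.1) (hirr := (hS P.1 P.2).2.2.2.1)
          (hdisc := (hS P.1 P.2).2.2.2.2) hd, Z0, fun z hz A hA => ?_⟩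
        exact adm_all (a := fun l => a l P.1) hε.le (fun l hl => ha l hl P.1 P.2)
          (fun l hl a ha A hA => hZl l hl z ((hZl0 l hl).trans hz) a ha m P.1 (hS P.1 P.2).1
            (hS P.1 P.2).2.2.1 (hS P.1 P.2).2.2.2.2 A hA) A hA)
    (by
      intro q hq g hg
      right
      rcases cover3G hSm q (hμ q) hg with h | ⟨P, hP, t, hgt⟩
      · obtain ⟨l, hl⟩ := hf none
        refine ⟨l, ?_⟩
        rw [hl]
        exact ⟨ofPm q, mem_facV3G_P.2 rfl, h⟩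
      · obtain ⟨l, hl⟩ := hf (some ⟨P, hP⟩)
        refine ⟨l, ?_⟩
        rw [hl]
        exact ⟨(⟨ofPm q, t⟩ : BP K m P), (facO3_mem ⟨P, hP⟩ q _).2 rfl, hgt⟩)
    (gam (Ideal.span {(m : 𝓞 K)})) ((r : 𝓞 K), (r : 𝓞 K)) (fun _ => tau K) C
    (index_span_ne_zero hmK)
    (fun T => com_span T (fun q : Pm K m => q.1) (m : 𝓞 K) (fun q _ => q.2))
    (by
      intro l
      rcases f l with _ | P
      · intro b T _
        exact base_facV3G b T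
      · intro b T _
        exact base_sup b.1 _ (gam_le_Lam _ _) T)
    (by
      -- the cofactor
      intro X hX g hg hg0 hgam l
      have hgu : (m : 𝓞 K) ∣ g.1 - (r : 𝓞 K) := Ideal.mem_span_singleton.1 hg0.1
      have hgv : (m : 𝓞 K) ∣ g.2 - (r : 𝓞 K) := Ideal.mem_span_singleton.1 hg0.2
      rcases f l with _ | P
      · intro q hq p hp hgp
        have hp' : p = ofPm q := mem_facV3G_P.1 hp
        subst hp'
        obtain ⟨l', hl', hq'⟩ := hq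
        obtain ⟨q', h1, h2⟩ := (hcof g.1 g.2 hgu hgv l' hl').1 q.1 q.2 hq' hgp
        refine ⟨ofPm q', Set.mem_univ _, ?_, h1, ?_, ?_⟩
        · show (pf (ofPm q')).Nonempty
          rw [pf_ofPm]
          exact Finset.singleton_nonempty _
        · intro q'' hq''
          have h3 : ∀ x : Pm K m, x ∈ pf (ofPm q') → x = q' := by
            intro x hx
            rwa [pf_ofPm, Finset.mem_singleton] at hx
          have h4 : q'' = q' := h3 q'' hq''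
          rw [h4]
          exact Or.inl h1
        · refine h2.trans ((hC4 (2 * X) (by omega) g (box_sub hX hg)).trans ?_)
          show C4 * (2 * X) ^ Module.finrank ℚ K ≤ C * X ^ (1 * Module.finrank ℚ K)
          rw [one_mul, mul_pow, ← mul_assoc]
          exact Nat.mul_le_mul_right _ (by omega)
      · intro q hq p hp hgp
        have hp' : p.1 = ofPm q := (facO3_mem P q p).1 hp
        obtain ⟨I, t⟩ := p
        have hp'' : I = ofPm q := hp'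
        subst hp''
        obtain ⟨l', hl', hq'⟩ := hq
        obtain ⟨b, h1, h2, h3, h4, h5⟩ := Pool.Agent.Helper47.CL.cof_PG (M := l' ^ J)
          (hS P.1 P.2).1 hμ (a l' P.1) (hC1 P.1)
          (X := 2 * X) (by omega) (box_sub hX hg) hgam q
          (fun hx => (hcof g.1 g.2 hgu hgv l' hl').2 P.1 P.2 q.1 q.2 hq' hx) t hgp
        refine ⟨b, ⟨h1.1, l', hl', h1.2⟩, h2, h3,
          fun q' hq' => Or.inr ⟨P.1, P.2, h4 q' hq'⟩, h5.trans ?_⟩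
        show C1 P.1 * (2 * X) ^ (P.1.natDegree * Module.finrank ℚ K) ≤
          C * X ^ (P.1.natDegree * Module.finrank ℚ K)
        rw [mul_pow, ← mul_assoc]
        refine Nat.mul_le_mul_right _ ?_
        have h3 : C1 P.1 * 2 ^ (P.1.natDegree * Module.finrank ℚ K) ≤
            ∑ P ∈ S, C1 P * 2 ^ (P.natDegree * Module.finrank ℚ K) :=
          single_le_sum (f := fun P : (𝓞 K)[X] => C1 P * 2 ^ (P.natDegree * Module.finrank ℚ K))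
            (fun _ _ => Nat.zero_le _) P.2
        omega)
    (by
      intro X hX g hg q hq
      have h1 := nm_le_norm (fst_ne_zero hg) q.1 hq.1
      refine h1.trans ((hC2 (2 * X) (by omega) g (box_sub hX hg)).trans ?_)
      rw [mul_pow, ← mul_assoc]
      exact Nat.mul_le_mul_right _ (by omega))
    (by
      intro q ρ hρ
      have h1 := hC5 q.1 (gam q.1.asIdeal) (fun g => mem_gam) ρ hρ
      intro g
      obtain ⟨l, hl, h2⟩ := h1 g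
      refine ⟨l, hl, fun i => (h2 i).trans ?_⟩
      have : C5 * ρ ≤ C * ρ := Nat.mul_le_mul_right _ (by omega)
      exact_mod_cast this)
    (by
      intro T
      have h1 : ∑ q ∈ T, (nm q.1 : ℝ) ^ (-(3 / 2) : ℝ) ≤ C3 := by
        exact le_trans (Finset.sum_map T (Function.Embedding.subtype _)
          (fun v : Pl K => (nm v : ℝ) ^ (-(3 / 2) : ℝ))).ge
            (hC3 (T.map (Function.Embedding.subtype _)))
      refine h1.trans ((Nat.le_ceil C3).trans ?_)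
      have : ⌈C3⌉₊ ≤ C := by omega
      exact_mod_cast this)
  -- the choice of the box
  obtain ⟨X2, hX2⟩ := rpow_gt (Module.finrank ℚ K) Z.card hn
  obtain ⟨X, hXdef⟩ : ∃ X, X = (T1 + X2 + 1) ^ (2 * E) := ⟨_, rfl⟩
  have hX2X : X2 ≤ X := by
    rw [hXdef]
    calc X2 ≤ T1 + X2 + 1 := by omega
      _ = (T1 + X2 + 1) ^ 1 := (pow_one _).symm
      _ ≤ (T1 + X2 + 1) ^ (2 * E) := Nat.pow_le_pow_right (by omega) (by omega)
  have hA := hT1 (T1 + X2 + 1) (by omega)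
  rw [← hXdef] at hA
  have hB := hX2 X hX2X
  obtain ⟨A, hAdef⟩ : ∃ A, A = (bx (eK K) (tau K) X).filter (fun g =>
      g - ((r : 𝓞 K), (r : 𝓞 K)) ∈ gam (Ideal.span {(m : 𝓞 K)}) ∧
        (∀ q : Pm K m, Bad Λ J q.1 → g ∉ EV S (s : 𝓞 K) q.1) ∧
        ∀ q : Pm K m, g ∉ gam q.1.asIdeal) := ⟨_, rfl⟩
  have hAc : (X : ℝ) ^ ((2 * Module.finrank ℚ K : ℝ) - 1 / 2) ≤ A.card := by
    refine hA.trans (le_of_eq ?_)
    rw [hAdef]
    congr 2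
  obtain ⟨B, hBdef⟩ : ∃ B, B = Z.biUnion (fun z => (bx (eK K) (tau K) X).filter
      (fun g => (g.1 : K) = (z * s) * (g.2 : K))) := ⟨_, rfl⟩
  have hBc : B.card ≤ Z.card * X ^ Module.finrank ℚ K := by
    rw [hBdef]
    refine card_biUnion_le.trans ((sum_le_card_nsmul _ _ (X ^ Module.finrank ℚ K)
      (fun z _ => Helper32.CB.card_line K (z * s) _ X)).trans (le_of_eq (smul_eq_mul _ _)))
  have hlt : B.card < A.card := by
    have h1 : (B.card : ℝ) < A.card := by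
      refine lt_of_le_of_lt ?_ (hB.trans_le hAc)
      exact_mod_cast hBc
    exact_mod_cast h1
  obtain ⟨g, hgA, hgB⟩ := exists_mem_notMem_of_card_lt_card hlt
  rw [hAdef, mem_filter] at hgA
  obtain ⟨hgX, hg0, hgE, hgG⟩ := hgA
  have hgu : (m : 𝓞 K) ∣ g.1 - (r : 𝓞 K) := Ideal.mem_span_singleton.1 hg0.1
  have hgv : (m : 𝓞 K) ∣ g.2 - (r : 𝓞 K) := Ideal.mem_span_singleton.1 hg0.2
  have hv0 : g.2 ≠ 0 := hr0 _ hgv
  refine ⟨g.1, g.2, hgu, hgv, fst_ne_zero hgX, hv0, ?_, ?_, ?_⟩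
  · refine Helper56.CB.coprime_of_places
      (fun p hp => Pool.Agent.Helper35.CB.notMem_of_congr hrm hgu p hp) ?_
    rintro p ⟨hp1, hp2⟩
    by_cases hp : (m : 𝓞 K) ∈ p.asIdeal
    · exact Pool.Agent.Helper35.CB.notMem_of_congr hrm hgu p hp hp1
    · exact hgG ⟨p, hp⟩ ⟨hp1, hp2⟩
  · intro hz
    apply hgB
    rw [hBdef, mem_biUnion]
    refine ⟨_, hz, mem_filter.2 ⟨hgX, ?_⟩⟩
    have h1 : (s : K) ≠ 0 := Nat.cast_ne_zero.2 hs0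
    have h2 : (g.2 : K) ≠ 0 := by
      intro h
      exact hv0 (RingOfIntegers.ext h)
    field_simp
  · intro p hp hpm
    have h1 := hgE ⟨p, hpm⟩ hp
    exact ⟨fun h => h1 (Or.inl h), fun P hP h => h1 (Or.inr ⟨P, hP, h⟩)⟩

end Pool.Agent.Helper47.CL
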